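import Mathlib
import Pool.Agent.W922.TB.Fin

/-!
# Topological conjugacy of diffeomorphisms and actions of `S_∞`

For every nonempty compact `C^∞` manifold `M` without boundary, of dimension at least two, the
relation of topological conjugacy on `Diff^r(M)` is not Borel reducible to the orbit equivalence
relation of a Borel action of `S_∞` on a standard Borel space.
-/

set_option autoImplicit false

open Set Filter Topology
open scoped Manifold ContDiff InnerProductSpace
open Pool.Agent.H410R3.KS Pool.Agent.H468R2.KA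

namespace Pool.Agent.Results.MP_9aeaaa_lc.NotClassifiable

universe u

/-- The action of `S_∞` (the group of all permutations of `ℕ`) on `Y` is Borel: the map
`(π, y) ↦ π • y` is measurable, where `S_∞` carries the σ-algebra generated by the sets
`{π | π i = j}` (its Borel σ-algebra). -/
def BorelAction (Y : Type u) [MeasurableSpace Y] [MulAction (Equiv.Perm ℕ) Y] : Prop :=
  @Measurable (Equiv.Perm ℕ × Y) Y (permMS.prod inferInstance) _ (fun p => p.1 • p.2)

/-- Topological conjugacy on `Diff^r(M)`, with the Borel structure of the `C^r` topology, is Borel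
reducible to the orbit equivalence relation of the action of `S_∞` on `Y`. -/
def ReducibleToOrbits (n : ℕ) (M : Type) [TopologicalSpace M]
    [ChartedSpace (EuclideanSpace ℝ (Fin n)) M] (r : ℕ∞) (Y : Type u) [MeasurableSpace Y]
    [MulAction (Equiv.Perm ℕ) Y] : Prop :=
  ∃ φ : DiffR (𝓡 n) M r → Y, @Measurable _ _ (@borel _ (crTopology (𝓡 n) M r)) _ φ ∧
    ∀ f g : DiffR (𝓡 n) M r, TopConj f.map g.map ↔ ∃ π : Equiv.Perm ℕ, π • φ f = φ g

/-- Topological conjugacy of `C^r` diffeomorphisms of a compact manifold of dimension at least two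
is not Borel reducible to the orbit equivalence relation of a Borel action of `S_∞`. -/
theorem result (n : ℕ) (hn : 2 ≤ n) (M : Type) [TopologicalSpace M]
    [ChartedSpace (EuclideanSpace ℝ (Fin n)) M] [IsManifold (𝓡 n) ∞ M] [CompactSpace M]
    [T2Space M] [Nonempty M] (r : ℕ∞) (Y : Type u) [MeasurableSpace Y] [StandardBorelSpace Y]
    [MulAction (Equiv.Perm ℕ) Y] (hY : BorelAction Y) : ¬ ReducibleToOrbits n M r Y := by
  rintro ⟨φ, hφ, hred⟩
  let i0 : Fin n := ⟨0, by omega⟩
  let i1 : Fin n := ⟨1, by omega⟩
  have h01 : i1 ≠ i0 := by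
    intro h
    have h3 : (1 : ℕ) = 0 := congrArg Fin.val h
    exact one_ne_zero h3
  have h1 : ‖(EuclideanSpace.single i0 (1 : ℝ))‖ = 1 := by simp
  have h2 : ‖(EuclideanSpace.single i1 (1 : ℝ))‖ = 1 := by simp
  have h12 : ⟪(EuclideanSpace.single i1 (1 : ℝ)), (EuclideanSpace.single i0 (1 : ℝ))⟫_ℝ = 0 := by
    rw [EuclideanSpace.inner_single_left, PiLp.single_apply, if_neg h01, mul_zero]
  exact Pool.Agent.W922.TB.main h1 h2 h12 r Y hY φ hφ hred

end Pool.Agent.Results.MP_9aeaaa_lc.NotClassifiable
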